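import Pool.Agent.Helper13.Swan.Final

set_option autoImplicit false

namespace Pool.Agent.Results.MP_410e67_nt.SwanSquares

open ValuativeRel Pool.Agent.Helper13.Swan

/-- Let `F` be a nonarchimedean local field whose residue field has characteristic two, `E / F` a
finite Galois extension and `ρ` a finite-dimensional complex representation of `Gal(E/F)`. Then
`Sw(Sym² ρ) - Sw(∧² ρ) ≤ Sw(ρ)`.

Here `ramGroup F E i` is the `i`-th ramification group `G_i` in the lower numbering, `swanOf G ρ`
is the sum over `i ≥ 1` of `(|G_i| / |G_0|) · dim (V / V^{G_i})`, and `sym2 ρ`, `wedge2 ρ` are the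
representations induced by `ρ` on the symmetric and on the exterior square of `V`, realised as
quotients of `V ⊗ V`. -/
theorem result.{f, e, v} (F : Type f) [Field F] [ValuativeRel F] [TopologicalSpace F]
    [IsNonarchimedeanLocalField F] [CharP 𝓀[F] 2] (E : Type e) [Field E] [Algebra F E]
    [FiniteDimensional F E] [IsGalois F E]
    (V : Type v) [AddCommGroup V] [Module ℂ V] [FiniteDimensional ℂ V]
    (ρ : Representation ℂ (E ≃ₐ[F] E) V) :
    swanOf (ramGroup F E) (sym2 ρ) - swanOf (ramGroup F E) (wedge2 ρ) ≤
      swanOf (ramGroup F E) ρ :=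
  main_ram F E V ρ

end Pool.Agent.Results.MP_410e67_nt.SwanSquares
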